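import Pool.Agent.Helper64.HK.MkM
import Pool.Agent.Helper64.HK.Curve
import Pool.Agent.Helper64.HK.BdDeg
import Pool.Agent.Helper64.HM.StartE
import Pool.Agent.Helper16.N4.Crv

/-!
# Project N4: GRAM, the genus one curve in the closure, MEMS and the first state
-/

set_option autoImplicit false

namespace Pool.Agent.Helper64.N4

open Pool.Agent.Helper28.HN (I aff)
open Pool.Agent.Helper24.HK Pool.Agent.Helper24.HM Pool.Agent.Helper64.HK Pool.Agent.Helper16.N4
open Function Finset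

section line

variable {k m : ℕ} {a : Fin (k + 1) → Fin (m + 1)} {S S' : Type*} [CommRing S] [CommRing S']

theorem map_dv (f : S →+* S') (x : Un4 k m → S) (i : Fin (m + 1)) :
    f (dv x i) = dv (fun j => f (x j)) i := by
  refine Fin.cases ?_ (fun i => ?_) i
  · simp [dv]
  · simp [dv]

theorem map_pl (f : S →+* S') (s : Sel4 k m) (x : Un4 k m → S) (t : S) :
    (fun l i => f (pl s x t l i)) = pl s (fun j => f (x j)) (f t) := by
  unfold pl
  rw [map_ct]
  congr 1
  funext q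
  rw [map_add]
  split_ifs
  · rw [map_mul, map_dv]
  · rw [map_zero]

theorem pP_eq (s : Sel4 k m) (x : Un4 k m → S) :
    pP s x = Helper64.HK.lp (ct fun q => x (.u q)) s.f.succ (dr x) := by
  unfold pP pl Helper64.HK.lp
  funext l
  refine Fin.cases ?_ (fun l => ?_) l
  · rw [update_of_ne (Fin.succ_ne_zero s.f).symm]
    funext i
    simp [ct]
  · by_cases hl : l = s.f
    · subst hl
      rw [update_self]
      funext i
      refine Fin.cases ?_ (fun i => ?_) i
      · simp [ct, aff, dr]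
      · simp [ct, aff, dr, map_dv]
    · rw [update_of_ne (fun h => hl (Fin.succ_injective _ h))]
      funext i
      refine Fin.cases ?_ (fun i => ?_) i
      · simp [ct, aff]
      · simp [ct, aff, hl]

end line

/-- The square of the determinant divides the discriminant. -/
theorem gram {k m : ℕ} {a : Fin (k + 1) → Fin (m + 1)} {E : Type*} [Field E] [CharZero E]
    (c : Ix a → E) (s : Sel4 k m) (x : Un4 k m → E) (_hD : mP c s x ≠ 0) :
    ∃ g : Polynomial E, dP c s x = mP c s x ^ 2 * g ∧ g.natDegree ≤ 2 * m + 4 := by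
  refine ⟨bd (fun e => Polynomial.C (c e)) (pP s x), sq_sub _ _, ?_⟩
  rw [pP_eq]
  exact (deg_bd c _ s.f _).trans (by omega)

section field

variable {k m : ℕ} {a : Fin (k + 1) → Fin (m + 1)} {E : Type*} [Field E]

theorem eval_pP (s : Sel4 k m) (x : Un4 k m → E) (t : E) :
    (fun l i => (pP s x l i).eval t) = pl s x t := by
  have h := map_pl (Polynomial.evalRingHom t) s (fun i => Polynomial.C (x i)) Polynomial.X
  simp only [Polynomial.coe_evalRingHom, Polynomial.eval_C, Polynomial.eval_X] at h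
  exact h

theorem eval_mP (c : Ix a → E) (s : Sel4 k m) (x : Un4 k m → E) (t : E) :
    (mP c s x).eval t = (Mx c (pl s x t)).det := by
  have h := map_det_Mx (fun e => Polynomial.C (c e)) (Polynomial.evalRingHom t) (pP s x)
  simp only [Polynomial.coe_evalRingHom, Polynomial.eval_C] at h
  rw [eval_pP] at h
  exact h

theorem eval_dP (c : Ix a → E) (s : Sel4 k m) (x : Un4 k m → E) (t : E) :
    (dP c s x).eval t = Bh c (pl s x t) ^ 2 - Ah c (pl s x t) * Ch c (pl s x t) := by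
  have hA := map_Ah (fun e => Polynomial.C (c e)) (Polynomial.evalRingHom t) (pP s x)
  have hB := map_Bh (fun e => Polynomial.C (c e)) (Polynomial.evalRingHom t) (pP s x)
  have hC := map_Ch (fun e => Polynomial.C (c e)) (Polynomial.evalRingHom t) (pP s x)
  simp only [Polynomial.coe_evalRingHom, Polynomial.eval_C] at hA hB hC
  rw [eval_pP] at hA hB hC
  unfold dP
  rw [Polynomial.eval_sub, Polynomial.eval_mul, Polynomial.eval_pow, hA, hB, hC]

theorem eval_sP (c : Ix a → E) (s : Sel4 k m) (x : Un4 k m → E) (t : E) :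
    (sP c s x).eval t = (Mx c (pl s x t)).det * ∏ i : Fin m, (t - x (.t i.succ)) := by
  unfold sP
  rw [Polynomial.eval_mul, eval_mP, Polynomial.eval_prod]
  simp only [Polynomial.eval_sub, Polynomial.eval_X, Polynomial.eval_C]

theorem mem_pl {K : Subfield E} (s : Sel4 k m) {x : Un4 k m → E} (hx : ∀ i, x i ∈ K) {t : E}
    (ht : t ∈ K) (l : Fin (k + 1)) (i : I m) : pl s x t l i ∈ K := by
  have h := congrFun (congrFun (map_pl K.subtype s (fun i => (⟨x i, hx i⟩ : K)) ⟨t, ht⟩) l) i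
  have h2 : pl s x t l i = _ := h.symm
  rw [h2]
  exact (pl s (fun i => (⟨x i, hx i⟩ : K)) ⟨t, ht⟩ l i).2

theorem mem_det {K : Subfield E} {c : Ix a → E} (hc : ∀ e, c e ∈ K)
    {X : Fin (k + 1) → I m → E} (hX : ∀ l i, X l i ∈ K) : (Mx c X).det ∈ K := by
  have h := map_det_Mx (fun e => (⟨c e, hc e⟩ : K)) K.subtype (fun l i => (⟨X l i, hX l i⟩ : K))
  have h2 : (Mx c X).det = _ := h.symm
  rw [h2]
  exact ((Mx (fun e => (⟨c e, hc e⟩ : K)) (fun l i => (⟨X l i, hX l i⟩ : K))).det).2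

/-- The points of the curve are in the closure. -/
theorem z_curve [CharZero E]
    (K : Subfield E) (c : Ix a → E) (s : Sel4 k m) (x : Un4 k m → E) (hc : ∀ e, c e ∈ K)
    (hx : ∀ i, x i ∈ K) (h : Crv (K : Set E) c s x) (t z : E) (hF : Fh c (pl s x t) z = 0)
    (hA : Ah c (pl s x t) ≠ 0) (hD : (Mx c (pl s x t)).det ≠ 0)
    (ht : ∀ i : Fin m, t ≠ x (.t i.succ)) :
    Xz c (pl s x t) z ∈ Helper24.HK.Zc (K : Set E) c := by
  obtain ⟨q, hq, hinf⟩ := h
  have hK : (K : Set E).Infinite :=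
    Set.infinite_of_injective_forall_mem (f := fun n : ℕ => (n : E)) Nat.cast_injective
      fun n => natCast_mem K n
  have h1 := zc_curve (c := c) two_ne_zero hK hc (pP s x) (fun t ht l i => by
      have := congrFun (congrFun (eval_pP s x t) l) i
      rw [this]
      exact mem_pl s hx ht l i) (sP c s x) q (fun t ht => by
      rw [eval_sP]
      refine K.mul_mem (mem_det hc (mem_pl s hx ht)) (prod_mem fun i _ => ?_)
      exact K.sub_mem ht (hx _)) (fun t => by
      rw [eval_pP, ← eval_dP, hq, Polynomial.eval_mul, Polynomial.eval_pow]) hinf t z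
      (by rwa [eval_pP]) (by rwa [eval_pP]) (by
      rw [eval_sP]
      exact mul_ne_zero hD (Finset.prod_ne_zero_iff.2 fun i _ => sub_ne_zero.2 (ht i)))
  rwa [eval_pP] at h1

end field

section padic

variable {p : ℕ} [Fact p.Prime] {k m : ℕ} {a : Fin (k + 1) → Fin (m + 1)} {c : Ix a → ℤ_[p]}
  {s : Sel4 k m} {x : Un4 k m → ℤ_[p]}

theorem pt_eq4 (s : Sel4 k m) (x : Un4 k m → ℤ_[p]) :
    ct (tr (tr' fun q => x (.u q))) = pt (rd s x) := by
  unfold pt
  congr 1
  funext q
  unfold tr tr'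
  rw [Equiv.symm_apply_apply]
  rfl

theorem isUnit_D4 (h : Cfg4 c s x) : IsUnit (Mx c (pt (rd s x))).det := by
  have := h.hPa
  unfold Pa4 at this
  simp only [IsUnit.mul_iff] at this
  exact this.1.1.1.1.1.1.1.1

theorem isUnit_q4 (h : Cfg4 c s x) :
    IsUnit (qh c s.f.succ (pt (rd s x)) (dr x) (x (.z s.j))) := by
  have := h.hPa
  unfold Pa4 at this
  simp only [IsUnit.mul_iff] at this
  exact this.2

theorem isUnit_t4 (h : Cfg4 c s x) (r : Fin (m + 1)) : IsUnit (x (.t r)) := by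
  have := h.hPb
  unfold Pb4 at this
  simp only [IsUnit.mul_iff] at this
  have h1 := this.1.1.2
  rw [Finset.prod_eq_mul_prod_sdiff_singleton_of_mem (Finset.mem_univ r), IsUnit.mul_iff] at h1
  exact h1.1

theorem det_ne4 (h : Cfg4 c s x) {y : Fin (k * (m + 1)) → ℤ_[p]}
    (hx : ‖y - tr' fun q => x (.u q)‖ ≤ (p : ℝ) ^ (-2 : ℤ)) : (Mx c (ct (tr y))).det ≠ 0 := by
  intro h0
  have h1 := norm_det_sub c y (tr' fun q => x (.u q))
  have h2 : ‖(Mx c (pt (rd s x))).det‖ = 1 := PadicInt.isUnit_iff.1 (isUnit_D4 h)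
  rw [h0, pt_eq4 s, zero_sub, norm_neg, h2] at h1
  have h3 : (p : ℝ) ^ (-2 : ℤ) < 1 := by
    have h4 : (1 : ℝ) < p := by exact_mod_cast (Fact.out : p.Prime).one_lt
    exact zpow_lt_one_of_neg₀ h4 (by norm_num)
  linarith

/-- The points of the closure `Zc`. The first graph is given by the curve over the line `M`. -/
theorem exists_mems4 {p : ℕ} [Fact p.Prime] (_hp : p ≠ 2) {k m : ℕ} {a : Fin (k + 1) → Fin (m + 1)}
    (c : Ix a → ℤ_[p]) (s : Sel4 k m) (x : Un4 k m → ℤ_[p]) (h : Cfg4 c s x)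
    (L : LocM p (k * (m + 1)) (Fin k)) (hL : IsLoc c L) (R : RefM L (Lt k m)) (hR : IsRef4 s x R)
    (K : Subfield ℚ_[p]) (hc : ∀ e, (c e : ℚ_[p]) ∈ K) (hx : ∀ i, (x i : ℚ_[p]) ∈ K)
    (hcr : Crv (K : Set ℚ_[p]) (fun e => (c e : ℚ_[p])) s fun i => (x i : ℚ_[p])) :
    ∃ M : MemsM L R,
      (∀ N x z, M.Mem N x z ↔
        cq (Xz c (ct (tr x)) z) ∈ Helper24.HK.Zc (K : Set ℚ_[p]) fun e => (c e : ℚ_[p])) ∧
      (∀ N x z, M.Mem' N x z ↔
        cq (Xz c (ct (tr x)) z) ∈ Helper24.HK.Zc (K : Set ℚ_[p]) fun e => (c e : ℚ_[p])) ∧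
      ∃ x0, StM M none (some s.j) 2 0 x0 := by
  obtain ⟨M, h1, h2⟩ := exists_M c L hL R K hc (fun y hy => by
    rw [hR.u0] at hy
    exact det_ne4 h hy)
  refine ⟨M, h1, h2, ?_⟩
  have hF := loc_F hL
  have hu : R.u0 = tr' fun q => x (.u q) := hR.u0
  have hpt : ct (tr R.u0) = pt (rd s x) := by rw [hu, pt_eq4 s]
  have hzy : R.z R.y = (s.y : ℤ_[p]) := by rw [hR.z, hR.y]; rfl
  have hzj : R.z R.j = x (.z s.j) := by rw [hR.z, hR.j]; rfl
  have hDu : ‖(Mx c (pt (rd s x))).det‖ = 1 := PadicInt.isUnit_iff.1 (isUnit_D4 h)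
  obtain ⟨d, hd, -⟩ := hL.hd s.f R.u0 (dv x)
  rw [hpt] at hd
  have key := Helper64.HM.start_curve M (Helper24.HK.em s.f (dv x)) ?_ ?_ ?_ ?_ ?_
  · rw [hR.y, hR.j] at key
    exact key
  · rw [hzj, hd, h.Fj, mul_zero, add_zero]
    exact PadicInt.isUnit_iff.1 (isUnit_q4 h)
  · rw [hL.hA, hpt, norm_mul, hDu, one_mul, h.hA]
  · rw [hF, hzy, hpt, h.Fy, mul_zero]
  · rw [hF, hzj, hpt, h.Fj, mul_zero]
  · intro t w ht _ h0 hA0
    rw [hF] at h0
    rw [hL.hA] at hA0
    have h3 : Fh c (ct (tr (R.u0 + t • Helper24.HK.em s.f (dv x)))) w = 0 :=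
      (mul_eq_zero.1 h0).resolve_left (left_ne_zero_of_mul hA0)
    rw [h1, cq_Xz]
    have hpl : ct (uq (R.u0 + t • Helper24.HK.em s.f (dv x))) =
        pl s (fun i => (x i : ℚ_[p])) (t : ℚ_[p]) := by
      rw [uq_add]
      unfold pl
      congr 1
      funext q
      have e1 : uq R.u0 q = (x (.u q) : ℚ_[p]) := by
        rw [hu]
        unfold uq tr tr'
        rw [Equiv.symm_apply_apply]
      have e2 : (fun i => cj (dv x i)) = dv fun i => (x i : ℚ_[p]) := funext fun i => map_dv cj x i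
      rw [e1]
      have e3 : cj (dv x q.2) = dv (fun i => (x i : ℚ_[p])) q.2 := congrFun e2 q.2
      rw [mul_ite, mul_zero, e3]
    rw [hpl]
    refine z_curve K (fun e => (c e : ℚ_[p])) s _ hc hx hcr _ _ ?_ ?_ ?_ ?_
    · rw [← hpl]
      exact (cj_Fh c _ w).trans (by rw [h3, map_zero])
    · rw [← hpl]
      intro h4
      refine right_ne_zero_of_mul hA0 (cj_inj ?_)
      rw [map_zero, ← h4]
      exact (cj_Ah c _).symm
    · rw [← hpl]
      intro h4
      refine left_ne_zero_of_mul hA0 (cj_inj ?_)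
      rw [map_zero, ← h4]
      exact (cj_det c _).symm
    · intro i h4
      have h5 : t = x (.t i.succ) := cj_inj h4
      have h6 : ‖x (.t i.succ)‖ = 1 := PadicInt.isUnit_iff.1 (isUnit_t4 h i.succ)
      rw [← h5] at h6
      have h7 := Pool.Agent.Helper45.HN.p2_le_one (p := p)
      have h8 : (p : ℝ) ^ (-2 : ℤ) < 1 := by
        have h4 : (1 : ℝ) < p := by exact_mod_cast (Fact.out : p.Prime).one_lt
        exact zpow_lt_one_of_neg₀ h4 (by norm_num)
      have h9 := Pool.Agent.Helper45.HN.p2_pos (p := p)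
      rw [h6] at ht
      nlinarith

end padic

end Pool.Agent.Helper64.N4
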